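import Mathlib

set_option autoImplicit false

/-!
# MP_f61043_lc, part C : singular strong limit cardinals with weakly compact cofinality, combinatorics

`M` is a well-order of the type of the cofinality, with the partition property `M → (M)²`; `X` is a set of size `κ`, the
union of an increasing sequence of sets `XX t` of regular cardinalities `k t`, `t : M`; `2 ^ l t < k t` where `l t` bounds the `k s`, `s < t`.
-/

universe u

open Cardinal Set

namespace F61C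

variable {M X Y : Type u} [LinearOrder M] [WellFoundedLT M]

/-- `S` is unbounded. -/
def Unb (S : Set M) : Prop := ∀ a, ∃ b ∈ S, a < b

/-- The setting. -/
structure Dat (k l : M → Cardinal.{u}) (XX : M → Set X) : Prop where
  le_l : ∀ s t, s < t → k s ≤ l t
  two : ∀ t, (2 : Cardinal.{u}) ^ l t < k t
  ml : ∀ t, #M ≤ l t
  inf : ℵ₀ ≤ #M
  seg : ∀ t : M, #(Iio t) < #M
  bdd : ∀ S : Set M, #S < #M → ∃ b, ∀ x ∈ S, x < b
  part : ∀ f : M → M → Prop, ∃ H : Set M, Unb H ∧ ((∀ x ∈ H, ∀ y ∈ H, x < y → f x y) ∨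
    ∀ x ∈ H, ∀ y ∈ H, x < y → ¬ f x y)
  reg : ∀ t, (k t).IsRegular
  cardX : ∀ t, #(XX t) = k t
  mono : ∀ s t, s ≤ t → XX s ⊆ XX t
  cov : ∀ x, ∃ t, x ∈ XX t
  strong : ∀ t, (2 : Cardinal.{u}) ^ k t < #X

variable {k l : M → Cardinal.{u}} {XX : M → Set X}

theorem Dat.gt (D : Dat k l XX) (a b : M) : ∃ c, a < c ∧ b < c := by
  obtain ⟨c, hc⟩ := D.bdd {a, b} ((lt_aleph0_of_finite _).trans_le D.inf)
  exact ⟨c, hc a (by simp), hc b (by simp)⟩

theorem Dat.k_mono (D : Dat k l XX) {s t : M} (h : s ≤ t) : k s ≤ k t := by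
  rcases h.eq_or_lt with h | h
  · rw [h]
  · exact (D.le_l s t h).trans ((cantor _).le.trans (D.two t).le)

theorem Dat.l_lt (D : Dat k l XX) (t : M) : l t < k t := (cantor _).trans (D.two t)

theorem Dat.k_lt (D : Dat k l XX) (t : M) : k t < #X := (cantor _).trans (D.strong t)

theorem Dat.nonempty (D : Dat k l XX) : Nonempty M := by
  rw [← mk_ne_zero_iff]
  exact (aleph0_pos.trans_le D.inf).ne'

theorem Dat.M_lt (D : Dat k l XX) : #M < #X := by
  obtain ⟨t⟩ := D.nonempty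
  exact (D.ml t).trans_lt ((D.l_lt t).trans (D.k_lt t))

theorem Dat.infX (D : Dat k l XX) : ℵ₀ ≤ #X := D.inf.trans D.M_lt.le

/-- Homogeneous sets for the lexicographic order. -/
theorem Dat.exists_I0 (D : Dat k l XX) (x : M → M → Prop) : ∃ I : Set M, Unb I ∧
    ∀ j, ∃ (τ : M) (e : Prop), ∀ t ∈ I, τ ≤ t → (x j t ↔ e) := by
  obtain ⟨H, hH, hf⟩ := D.part fun t t' => ∀ j, (∀ j' < j, (x j' t ↔ x j' t')) → (x j t → x j t')
  refine ⟨H, hH, ?_⟩
  intro j
  induction j using WellFoundedLT.induction with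
  | ind j ih =>
    choose! τ e he using ih
    obtain ⟨b, hb⟩ := D.bdd (range fun i : Iio j => τ i.1)
      (mk_range_le.trans_lt (D.seg j))
    have hag : ∀ t ∈ H, b ≤ t → ∀ t' ∈ H, b ≤ t' → ∀ j' < j, (x j' t ↔ x j' t') := by
      intro t ht hbt t' ht' hbt' j' hj'
      have h1 : τ j' < b := hb _ ⟨⟨j', hj'⟩, rfl⟩
      rw [he j' hj' t ht (h1.le.trans hbt), he j' hj' t' ht' (h1.le.trans hbt')]
    rcases hf with hf | hf
    · have hmon : ∀ t ∈ H, b ≤ t → ∀ t' ∈ H, t < t' → x j t → x j t' :=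
        fun t ht hbt t' ht' h => hf t ht t' ht' h j (hag t ht hbt t' ht' (hbt.trans h.le))
      by_cases h0 : ∃ t0 ∈ H, b ≤ t0 ∧ x j t0
      · obtain ⟨t0, ht0, hbt0, hx⟩ := h0
        obtain ⟨t1, ht1, -⟩ := D.gt t0 t0
        exact ⟨t1, True, fun t ht h => iff_true_intro (hmon t0 ht0 hbt0 t ht (ht1.trans_le h) hx)⟩
      · push Not at h0
        exact ⟨b, False, fun t ht h => iff_false_intro (h0 t ht h)⟩
    · have hmon : ∀ t ∈ H, b ≤ t → ∀ t' ∈ H, t < t' → x j t' → x j t := by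
        intro t ht hbt t' ht' h hx
        have h1 := hf t ht t' ht' h
        push Not at h1
        obtain ⟨j1, h2, h3, h4⟩ := h1
        rcases lt_trichotomy j1 j with h5 | h5 | h5
        · exact absurd ((hag t ht hbt t' ht' (hbt.trans h.le) j1 h5).1 h3) h4
        · rw [h5] at h3
          exact h3
        · exact (h2 j h5).2 hx
      by_cases h0 : ∃ t0 ∈ H, b ≤ t0 ∧ ¬ x j t0
      · obtain ⟨t0, ht0, hbt0, hx⟩ := h0
        obtain ⟨t1, ht1, -⟩ := D.gt t0 t0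
        exact ⟨t1, False, fun t ht h =>
          iff_false_intro fun h2 => hx (hmon t0 ht0 hbt0 t ht (ht1.trans_le h) h2)⟩
      · push Not at h0
        exact ⟨b, True, fun t ht h => iff_true_intro (h0 t ht h)⟩

theorem Dat.exists_I (D : Dat k l XX) {J : Type u} (hJ : #J ≤ #M) (x : J → M → Prop) :
    ∃ I : Set M, Unb I ∧ ∀ j, ∃ (τ : M) (e : Prop), ∀ t ∈ I, τ ≤ t → (x j t ↔ e) := by
  by_cases hne : Nonempty J
  · obtain ⟨g⟩ := hJ
    obtain ⟨I, h1, h2⟩ := D.exists_I0 fun m => x (Function.invFun g m)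
    refine ⟨I, h1, fun j => ?_⟩
    have h3 := h2 (g j)
    rw [Function.leftInverse_invFun g.injective j] at h3
    exact h3
  · exact ⟨univ, fun a => by
      obtain ⟨c, hc, -⟩ := D.gt a a
      exact ⟨c, mem_univ _, hc⟩, fun j => absurd ⟨j⟩ hne⟩

/-- Sparse unbounded sets. -/
theorem Dat.exists_sparse (D : Dat k l XX) (F : M → M) : ∃ S : Set M, Unb S ∧
    ∀ x ∈ S, ∀ y ∈ S, x < y → F x < y := by
  obtain ⟨S, hS⟩ := zorn_subset {S : Set M | ∀ x ∈ S, ∀ y ∈ S, x < y → F x < y} (by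
    intro c hc hch
    refine ⟨⋃₀ c, ?_, fun s hs => subset_sUnion_of_mem hs⟩
    rintro x ⟨s, hs, hxs⟩ y ⟨t, ht, hyt⟩ hxy
    rcases hch.total hs ht with h | h
    · exact hc ht x (h hxs) y hyt hxy
    · exact hc hs x hxs y (h hyt) hxy)
  refine ⟨S, ?_, hS.prop⟩
  by_contra hu
  unfold Unb at hu
  push Not at hu
  obtain ⟨a, ha⟩ := hu
  obtain ⟨a', ha', -⟩ := D.gt a a
  have h1 : #S < #M := (mk_le_mk_of_subset (fun x hx => (ha x hx).trans_lt ha')).trans_lt (D.seg a')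
  obtain ⟨b, hb⟩ := D.bdd (F '' S) (mk_image_le.trans_lt h1)
  obtain ⟨y, hy1, hy2⟩ := D.gt a b
  have h2 : insert y S ∈ {S : Set M | ∀ x ∈ S, ∀ y ∈ S, x < y → F x < y} := by
    rintro x (hx | hx) z (hz | hz) hxz
    · rw [hx, hz] at hxz
      exact absurd hxz (lt_irrefl _)
    · rw [hx] at hxz
      exact absurd ((ha z hz).trans_lt hy1) (not_lt.2 hxz.le)
    · rw [hz]
      exact (hb _ ⟨x, hx, rfl⟩).trans hy2
    · exact hS.prop x hx z hz hxz
  have h3 := hS.2 h2 (subset_insert y S)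
  exact absurd hy1 (not_lt.2 (ha y (h3 (mem_insert y S))))

theorem Dat.card_le (D : Dat k l XX) {θ : Cardinal.{u}} (h : ∀ t, k t ≤ θ) : #X ≤ θ := by
  have h1 : (univ : Set X) ⊆ ⋃ t, XX t := fun x _ => mem_iUnion.2 (D.cov x)
  obtain ⟨t⟩ := D.nonempty
  have h2 : #M ≤ θ := (D.ml t).trans ((D.l_lt t).le.trans (h t))
  rw [← mk_univ]
  refine (mk_le_mk_of_subset h1).trans ((mk_iUnion_le _).trans ?_)
  refine (mul_le_mul' h2 (ciSup_le' fun t => ?_)).trans (mul_eq_self (D.inf.trans h2)).le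
  rw [D.cardX]
  exact h t

/-- The final construction. -/
theorem Dat.final (D : Dat k l XX) (c : X → Y → Prop) (A : M → Set X) (hA : ∀ t, A t ⊆ XX t)
    (hAk : ∀ t, k t ≤ #(A t)) (I : Set M) (hI : Unb I) (δ : Y) (e : Prop) (S : Set M) (hS : Unb S)
    (C : M → Set Y) (hC1 : ∀ s ∈ S, ∀ ξ ∈ C s, ∀ α ∈ XX s, (c α ξ ↔ c α δ))
    (hC2 : ∀ s ∈ S, k s ≤ #(C s))
    (hC3 : ∀ s ∈ S, ∃ τ, ∀ t ∈ I, τ ≤ t → ∀ α ∈ A t, ∀ ξ ∈ C s, (c α ξ ↔ e))
    (hδ : ∃ τ, ∀ t ∈ I, τ ≤ t → ∀ α ∈ A t, (c α δ ↔ e)) :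
    ∃ (A' : Set X) (B : Set Y), #X ≤ #A' ∧ #X ≤ #B ∧ ∀ α ∈ A', ∀ ξ ∈ B, (c α ξ ↔ e) := by
  choose fS hfS hfS' using hS
  choose fI hfI hfI' using hI
  choose! τ hτ using hC3
  obtain ⟨τ0, hτ0⟩ := hδ
  let s : M → M := fS
  let t : M → M := fun x => fI (max (max (s x) (τ (s x))) τ0)
  have hts : ∀ x, s x < t x := fun x => ((le_max_left _ _).trans (le_max_left _ _)).trans_lt (hfI' _)
  have htτ : ∀ x, τ (s x) < t x := fun x =>
    ((le_max_right _ _).trans (le_max_left _ _)).trans_lt (hfI' _)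
  have ht0 : ∀ x, τ0 < t x := fun x => (le_max_right _ _).trans_lt (hfI' _)
  obtain ⟨E, hE, hE'⟩ := D.exists_sparse fun x => max (t x) (τ (s x))
  have hxs : ∀ x, x < s x := hfS'
  refine ⟨⋃ x ∈ E, A (t x), ⋃ x ∈ E, C (s x), ?_, ?_, ?_⟩
  · refine D.card_le fun r => ?_
    obtain ⟨x, hx, hrx⟩ := hE r
    refine (D.k_mono (hrx.le.trans ((hxs x).trans (hts x)).le)).trans ((hAk (t x)).trans ?_)
    exact mk_le_mk_of_subset (subset_biUnion_of_mem (u := fun x => A (t x)) hx)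
  · refine D.card_le fun r => ?_
    obtain ⟨x, hx, hrx⟩ := hE r
    refine (D.k_mono (hrx.le.trans (hxs x).le)).trans ((hC2 (s x) (hfS x)).trans ?_)
    exact mk_le_mk_of_subset (subset_biUnion_of_mem (u := fun x => C (s x)) hx)
  · intro α hα ξ hξ
    obtain ⟨x, hx, hα⟩ := mem_iUnion₂.1 hα
    obtain ⟨y, hy, hξ⟩ := mem_iUnion₂.1 hξ
    rcases lt_trichotomy x y with h | h | h
    · have h1 : t x < s y := (le_max_left _ _).trans_lt ((hE' x hx y hy h).trans (hxs y))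
      rw [hC1 (s y) (hfS y) ξ hξ α (D.mono _ _ h1.le (hA _ hα))]
      exact hτ0 (t x) (hfI _) (ht0 x).le α hα
    · subst h
      exact hτ (s x) (hfS x) (t x) (hfI _) (htτ x).le α hα ξ hξ
    · have h1 : τ (s y) < t x :=
        (le_max_right _ _).trans_lt ((hE' y hy x hx h).trans ((hxs x).trans (hts x)))
      exact hτ (s y) (hfS y) (t x) (hfI _) h1.le α hα ξ hξ

end F61C
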