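import Pool.Agent.W_MP_f61043C_lc.Main

set_option autoImplicit false

/-!
# MP_f61043_lc, part C : from cardinals to the setting
-/

universe u

open Cardinal Set

namespace F61C

/-- The partition property `μ → (μ)²₂` : every colouring of the pairs of a set of size `μ` with two colours has a homogeneous
set of size `μ`. (For uncountable `μ` this says that `μ` is weakly compact.) -/
def Arrow2 (μ : Cardinal.{u}) : Prop :=
  ∀ M : Type u, #M = μ → ∀ f : M → M → Bool, (∀ x y, f x y = f y x) →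
    ∃ (H : Set M) (i : Bool), #H = μ ∧ ∀ x ∈ H, ∀ y ∈ H, x ≠ y → f x y = i

/-- The polarized relation `(κ ; l) → (κ κ ; κ κ)^{1,1}`. -/
def Pol (κ l : Cardinal.{u}) : Prop :=
  ∀ X Y : Type u, #X = κ → #Y = l → ∀ c : X → Y → Bool,
    ∃ (i : Bool) (A : Set X) (B : Set Y), #A = κ ∧ #B = κ ∧ ∀ a ∈ A, ∀ b ∈ B, c a b = i

theorem mk_Iio_lt {c : Cardinal.{u}} (w : c.ord.ToType) : #(Iio w) < c := mk_Iio_toType_ord_lt w

theorem exists_seg {κ ν : Cardinal.{u}} (h : ν < κ) : ∃ k : κ.ord.ToType, #(Iio k) = ν := by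
  have h1 : ν.ord < Ordinal.type (α := κ.ord.ToType) (· < ·) := by
    rw [Ordinal.type_toType]
    exact Cardinal.ord_lt_ord.2 h
  refine ⟨Ordinal.enum (α := κ.ord.ToType) (· < ·) ⟨ν.ord, h1⟩, ?_⟩
  have h2 := Ordinal.typein_enum (α := κ.ord.ToType) (· < ·) h1
  have h3 := congrArg Ordinal.card h2
  rw [card_ord, Ordinal.card_typein] at h3
  exact h3

/-- A cofinal function. -/
theorem exists_cofinal {κ : Cardinal.{u}} (h0 : ℵ₀ ≤ κ.ord.cof) : ∃ f : κ.ord.cof.ord.ToType → Cardinal.{u},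
    (∀ m, f m < κ) ∧ ∀ ν < κ, ∃ m, ν ≤ f m := by
  obtain ⟨S, hS, hS'⟩ := Order.exists_cof_eq κ.ord.ToType
  rw [Ordinal.cof_toType] at hS'
  have h1 : #S = #(κ.ord.cof.ord.ToType) := by rw [hS', mk_ord_toType]
  obtain ⟨e⟩ := Cardinal.eq.1 h1
  refine ⟨fun m => #(Iio (e.symm m).1), fun m => mk_Iio_lt _, fun ν hν => ?_⟩
  obtain ⟨w, hw⟩ := exists_seg hν
  obtain ⟨y, hy, hwy⟩ := hS w
  refine ⟨e ⟨y, hy⟩, ?_⟩
  show ν ≤ #(Iio (e.symm (e ⟨y, hy⟩)).1)
  rw [e.symm_apply_apply, ← hw]
  exact mk_le_mk_of_subset (Iio_subset_Iio hwy)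

/-- The cardinals `k t`. -/
theorem exists_kl {κ : Cardinal.{u}} (hκ : κ.IsStrongLimit) (hs : κ.ord.cof < κ) (h0 : ℵ₀ ≤ κ.ord.cof) :
    ∃ k l : κ.ord.cof.ord.ToType → Cardinal.{u}, (∀ s t, s < t → k s ≤ l t) ∧
      (∀ t, k t = Order.succ (2 ^ l t)) ∧ (∀ t, κ.ord.cof ≤ l t) ∧ (∀ t, k t < κ) ∧
      ∀ ν < κ, ∃ t, ν < k t := by
  classical
  obtain ⟨f, hf, hf'⟩ := exists_cofinal h0
  have hwf : WellFounded (fun a b : κ.ord.cof.ord.ToType => a < b) := wellFounded_lt
  let G : (t : κ.ord.cof.ord.ToType) → ((s : κ.ord.cof.ord.ToType) → s < t → Cardinal.{u}) →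
      Cardinal.{u} := fun t ih =>
    max (κ.ord.cof) (max (f t) (⨆ s : Iio t, Order.succ (2 ^ ih s.1 s.2)))
  let l : κ.ord.cof.ord.ToType → Cardinal.{u} := hwf.fix G
  have hl : ∀ t, l t = max (κ.ord.cof) (max (f t) (⨆ s : Iio t, Order.succ (2 ^ l s.1))) :=
    fun t => hwf.fix_eq G t
  have hlim : ∀ ν < κ, Order.succ ((2 : Cardinal.{u}) ^ ν) < κ := fun ν hν =>
    hκ.isSuccLimit.succ_lt (hκ.isStrongPrelimit hν)
  have hlt : ∀ t, l t < κ := by
    intro t
    induction t using WellFoundedLT.induction with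
    | ind t ih =>
      rw [hl]
      refine max_lt hs (max_lt (hf t) ?_)
      refine iSup_lt_of_lt_cof_ord ?_ fun s => hlim _ (ih s.1 s.2)
      exact mk_Iio_lt t
  refine ⟨fun t => Order.succ (2 ^ l t), l, ?_, fun t => rfl, ?_, fun t => hlim _ (hlt t), ?_⟩
  · intro s t hst
    rw [hl t]
    refine le_trans ?_ ((le_max_right _ _).trans (le_max_right _ _))
    exact le_ciSup (f := fun s : Iio t => Order.succ ((2 : Cardinal.{u}) ^ l s.1))
      Cardinal.bddAbove_of_small ⟨s, hst⟩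
  · intro t
    rw [hl t]
    exact le_max_left _ _
  · intro ν hν
    obtain ⟨t, ht⟩ := hf' ν hν
    refine ⟨t, ht.trans_lt ?_⟩
    have h1 : f t ≤ l t := by
      rw [hl t]
      exact (le_max_left _ _).trans (le_max_right _ _)
    exact h1.trans_lt ((cantor _).trans (Order.lt_succ _))

theorem unb_of_card {μ : Cardinal.{u}} (h0 : ℵ₀ ≤ μ) {H : Set μ.ord.ToType} (hH : #H = μ) : Unb H := by
  intro a
  by_contra hc
  push Not at hc
  have h1 : H ⊆ insert a (Iio a) := by
    intro x hx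
    rcases (hc x hx).eq_or_lt with h | h
    · exact Or.inl h
    · exact Or.inr h
  have h2 := (mk_le_mk_of_subset h1).trans mk_insert_le
  rw [hH] at h2
  exact absurd (h2.trans_lt (add_lt_of_lt h0 (mk_Iio_lt a) (one_lt_aleph0.trans_le h0))) (lt_irrefl _)

theorem exists_dat {κ : Cardinal.{u}} (hκ : κ.IsStrongLimit) (hs : κ.ord.cof < κ) (h0 : ℵ₀ ≤ κ.ord.cof)
    (hw : Arrow2 κ.ord.cof) (X : Type u) (hX : #X = κ) :
    ∃ (k l : κ.ord.cof.ord.ToType → Cardinal.{u}) (XX : κ.ord.cof.ord.ToType → Set X), Dat k l XX := by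
  classical
  obtain ⟨k, l, h1, h2, h3, h4, h5⟩ := exists_kl hκ hs h0
  have hX' : #X = #(κ.ord.ToType) := by rw [hX, mk_ord_toType]
  obtain ⟨e⟩ := Cardinal.eq.1 hX'
  choose w hw' using fun t => exists_seg (h4 t)
  have hkl : ∀ t, l t < k t := fun t => by
    rw [h2 t]
    exact (cantor _).trans (Order.lt_succ _)
  have hwlt : ∀ {x : κ.ord.ToType} {t}, #(Iio x) < k t → x < w t := by
    intro x t hx
    by_contra hc
    have := mk_le_mk_of_subset (Iio_subset_Iio (not_lt.1 hc))
    rw [hw'] at this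
    exact absurd hx (not_lt.2 this)
  refine ⟨k, l, fun t => {x | e x < w t}, ?_⟩
  refine
    { le_l := h1
      two := fun t => by
        rw [h2 t]
        exact Order.lt_succ _
      ml := fun t => by
        rw [mk_ord_toType]
        exact h3 t
      inf := by
        rw [mk_ord_toType]
        exact h0
      seg := fun t => by
        rw [mk_ord_toType]
        exact mk_Iio_lt t
      bdd := fun S hS => ?_
      part := fun f => ?_
      reg := fun t => by
        rw [h2 t]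
        exact isRegular_succ ((h0.trans (h3 t)).trans (cantor _).le)
      cardX := fun t => ?_
      mono := fun s t hst x hx => ?_
      cov := fun x => ?_
      strong := fun t => by
        rw [hX]
        exact hκ.isStrongPrelimit (h4 t) }
  · have h6 : ¬ IsCofinal S := by
      intro hc
      have h7 := Order.cof_le hc
      rw [Ordinal.cof_toType, Ordinal.cof_ord_cof] at h7
      rw [mk_ord_toType] at hS
      exact absurd hS (not_lt.2 h7)
    exact not_isCofinal_iff.1 h6
  · obtain ⟨H, i, hH, hi⟩ := hw _ (mk_ord_toType _)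
      (fun x y => decide ((x < y ∧ f x y) ∨ (y < x ∧ f y x))) (fun x y => by
        congr 1
        exact propext ⟨Or.symm, Or.symm⟩)
    refine ⟨H, unb_of_card h0 hH, ?_⟩
    rcases i with _ | _
    · right
      intro x hx y hy hxy hf
      have h6 := hi x hx y hy hxy.ne
      rw [decide_eq_false_iff_not] at h6
      exact h6 (Or.inl ⟨hxy, hf⟩)
    · left
      intro x hx y hy hxy
      have h6 := hi x hx y hy hxy.ne
      rw [decide_eq_true_iff] at h6
      rcases h6 with h6 | h6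
      · exact h6.2
      · exact absurd h6.1 (not_lt.2 hxy.le)
  · rw [← hw' t]
    refine mk_congr (Equiv.subtypeEquiv e fun x => Iff.rfl)
  · rcases hst.eq_or_lt with h | h
    · rw [← h]
      exact hx
    · exact lt_trans hx (hwlt (by
        rw [hw']
        exact (h1 s t h).trans_lt (hkl t)))
  · obtain ⟨t, ht⟩ := h5 _ (mk_Iio_lt (e x))
    exact ⟨t, hwlt ht⟩

/-- The relation holds at strong limit singular cardinals whose cofinality has the partition property. -/
theorem pol_of {κ : Cardinal.{u}} (hκ : κ.IsStrongLimit) (hs : κ.ord.cof < κ) (hw : Arrow2 κ.ord.cof) :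
    Pol κ (Order.succ κ) := by
  classical
  have h0 : ℵ₀ ≤ κ.ord.cof := by
    rw [Ordinal.aleph0_le_cof_iff, Ordinal.one_lt_cof_iff]
    refine isSuccLimit_ord ?_
    by_contra hc
    obtain ⟨n, hn⟩ := lt_aleph0.1 (not_le.1 hc)
    rcases n with _ | n
    · exact hκ.ne_zero (by simpa using hn)
    · have h1 := hκ.isStrongPrelimit (x := n) (by
        rw [hn]
        exact_mod_cast Nat.lt_succ_self n)
      rw [hn] at h1
      have h2 : ((2 ^ n : ℕ) : Cardinal.{u}) < ((n + 1 : ℕ) : Cardinal.{u}) := by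
        push_cast
        push_cast at h1
        exact h1
      have h3 : 2 ^ n < n + 1 := by exact_mod_cast h2
      have h4 : n < 2 ^ n := Nat.lt_two_pow_self
      omega
  intro X Y hX hY c
  obtain ⟨k, l, XX, D⟩ := exists_dat hκ hs h0 hw X hX
  obtain ⟨e, A, B, hA, hB, h⟩ := D.main (Y := Y) (by
    rw [hX, hY]
    exact Order.lt_succ _) (fun x y => c x y = true)
  rw [hX] at hA hB
  obtain ⟨A', hA', hA''⟩ := le_mk_iff_exists_subset.1 hA
  obtain ⟨B', hB', hB''⟩ := le_mk_iff_exists_subset.1 hB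
  by_cases he : e
  · exact ⟨true, A', B', hA'', hB'', fun a ha b hb => (h a (hA' ha) b (hB' hb)).2 he⟩
  · refine ⟨false, A', B', hA'', hB'', fun a ha b hb => ?_⟩
    have h1 : ¬ c a b = true := fun h2 => he ((h a (hA' ha) b (hB' hb)).1 h2)
    exact Bool.eq_false_iff.2 h1

/-- Under GCH every singular cardinal is a strong limit. -/
theorem strong_of_gch (hG : ∀ ν : Cardinal.{u}, ℵ₀ ≤ ν → (2 : Cardinal.{u}) ^ ν = Order.succ ν)
    {κ : Cardinal.{u}} (hs : κ.IsSingular) : κ.IsStrongLimit := by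
  refine ⟨hs.pos.ne', fun ν hν => ?_⟩
  rcases lt_or_ge ν ℵ₀ with h | h
  · exact (power_lt_aleph0 (by exact_mod_cast natCast_lt_aleph0 (n := 2)) h).trans_le hs.aleph0_le
  · rw [hG ν h]
    refine lt_of_le_of_ne (Order.succ_le_of_lt hν) fun h1 => hs.not_isRegular ?_
    rw [← h1]
    exact isRegular_succ h

end F61C
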