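import Pool.Agent.W_MP_f61043C_lc.Comb

set_option autoImplicit false

/-!
# MP_f61043_lc, part C : the relation
-/

universe u

open Cardinal Set

namespace F61C

variable {M X Y : Type u} [LinearOrder M] [WellFoundedLT M] {k l : M → Cardinal.{u}} {XX : M → Set X}

/-- The elements of `Y` which have the same colours as `η` on `XX s`. -/
def Cl (XX : M → Set X) (c : X → Y → Prop) (s : M) (η : Y) : Set Y :=
  {ξ | ∀ α ∈ XX s, (c α ξ ↔ c α η)}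

/-- The elements of `Y` some class of which is small. -/
def Bad (XX : M → Set X) (c : X → Y → Prop) : Set Y := {η | ∃ s, #(Cl XX c s η) ≤ #X}

theorem Dat.card_bad (D : Dat k l XX) (c : X → Y → Prop) : #(Bad XX c) ≤ #X := by
  have h1 : Bad XX c ⊆ ⋃ s : M, {η | #(Cl XX c s η) ≤ #X} := fun η ⟨s, hs⟩ => mem_iUnion.2 ⟨s, hs⟩
  have h2 : ∀ s : M, #{η | #(Cl XX c s η) ≤ #X} ≤ #X := by
    intro s
    have h3 : {η | #(Cl XX c s η) ≤ #X} ⊆ ⋃ P : Set (XX s),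
        {η | #(Cl XX c s η) ≤ #X ∧ {α : XX s | c α.1 η} = P} :=
      fun η hη => mem_iUnion.2 ⟨_, hη, rfl⟩
    refine (mk_le_mk_of_subset h3).trans ((mk_iUnion_le _).trans ?_)
    refine (mul_le_mul' ?_ (ciSup_le' fun P => ?_)).trans (mul_eq_self D.infX).le
    · rw [mk_set, D.cardX]
      exact (D.strong s).le
    · by_cases hP : ∃ η, #(Cl XX c s η) ≤ #X ∧ {α : XX s | c α.1 η} = P
      · obtain ⟨η, hη, hηP⟩ := hP
        refine le_trans (mk_le_mk_of_subset ?_) hη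
        rintro ξ ⟨-, hξ⟩ α hα
        have h4 : (⟨α, hα⟩ : XX s) ∈ {α : XX s | c α.1 ξ} ↔ (⟨α, hα⟩ : XX s) ∈ {α : XX s | c α.1 η} := by
          rw [hξ, hηP]
        exact h4
      · have h4 : {η | #(Cl XX c s η) ≤ #X ∧ {α : XX s | c α.1 η} = P} = ∅ := by
          rw [eq_empty_iff_forall_notMem]
          exact fun η hη => hP ⟨η, hη⟩
        rw [h4, mk_emptyCollection]
        exact Cardinal.zero_le _
  refine (mk_le_mk_of_subset h1).trans ((mk_iUnion_le _).trans ?_)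
  exact (mul_le_mul' D.M_lt.le (ciSup_le' h2)).trans (mul_eq_self D.infX).le

/-- Good elements have large sets of good elements in all their classes. -/
theorem Dat.good (D : Dat k l XX) (c : X → Y → Prop) {η : Y} (h : η ∉ Bad XX c) (s : M) :
    ∃ B : Set Y, B ⊆ Cl XX c s η \ Bad XX c ∧ #B = k s := by
  have h1 : #X < #(Cl XX c s η) := by
    by_contra hc
    exact h ⟨s, not_lt.1 hc⟩
  have h2 : #X < #(Cl XX c s η \ Bad XX c : Set Y) := by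
    by_contra hc
    have h3 : Cl XX c s η ⊆ (Cl XX c s η \ Bad XX c) ∪ Bad XX c := by
      intro x hx
      by_cases h4 : x ∈ Bad XX c
      · exact Or.inr h4
      · exact Or.inl ⟨hx, h4⟩
    have h4 := (mk_le_mk_of_subset h3).trans ((mk_union_le _ _).trans
      (add_le_add (not_lt.1 hc) (D.card_bad c)))
    rw [add_eq_self D.infX] at h4
    exact absurd h1 (not_lt.2 h4)
  exact le_mk_iff_exists_subset.1 ((D.k_lt s).le.trans h2.le)

/-- Pigeonhole. -/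
theorem exists_const {A B : Type u} {r : Cardinal.{u}} (hr : r.IsRegular) (hA : r ≤ #A) (hB : #B < r)
    (f : A → B) : ∃ b, r ≤ #(f ⁻¹' {b}) := by
  refine infinite_pigeonhole_card f r hA hr.aleph0_le ?_
  rw [hr.cof_ord]
  exact hB

theorem exists_const' {A B : Type u} {r : Cardinal.{u}} (hr : r.IsRegular) (S : Set A) (hA : r ≤ #S)
    (hB : #B < r) (f : A → B) : ∃ T ⊆ S, r = #T ∧ ∃ b, ∀ x ∈ T, f x = b := by
  obtain ⟨b, hb⟩ := exists_const hr hA hB fun x : S => f x.1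
  obtain ⟨T, hT, hT'⟩ := le_mk_iff_exists_subset.1 hb
  refine ⟨Subtype.val '' T, ?_, ?_, b, ?_⟩
  · rintro x ⟨y, -, rfl⟩
    exact y.2
  · rw [mk_image_eq Subtype.val_injective, hT']
  · rintro x ⟨y, hy, rfl⟩
    exact hT hy

/-- The relation. -/
theorem Dat.main (D : Dat k l XX) (hY : #X < #Y) (c : X → Y → Prop) :
    ∃ (e : Prop) (A : Set X) (B : Set Y), #X ≤ #A ∧ #X ≤ #B ∧ ∀ α ∈ A, ∀ ξ ∈ B, (c α ξ ↔ e) := by
  classical
  have h0 : ∀ η : Y, ∀ s : M, ∃ B : Set Y, η ∉ Bad XX c → B ⊆ Cl XX c s η \ Bad XX c ∧ #B = k s := by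
    intro η s
    by_cases h : η ∈ Bad XX c
    · exact ⟨∅, fun h' => absurd h h'⟩
    · obtain ⟨B, hB⟩ := D.good c h s
      exact ⟨B, fun _ => hB⟩
  choose B' hB' using h0
  obtain ⟨δ, hδ⟩ : ∃ δ, δ ∉ Bad XX c := by
    by_contra hc
    push Not at hc
    have h1 : Bad XX c = Set.univ := eq_univ_of_forall hc
    have h2 := D.card_bad c
    rw [h1, mk_univ] at h2
    exact absurd hY (not_lt.2 h2)
  -- the sets which are controlled at the level `t`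
  let bt : M → Set Y := fun t => {δ} ∪ ((⋃ s : Iio t, B' δ s.1) ∪
    ⋃ s : Iio t, ⋃ s' : Iio t, ⋃ ρ : B' δ s.1, B' ρ.1 s'.1)
  have hbt : ∀ t, #(bt t) ≤ l t := by
    intro t
    have hl : ℵ₀ ≤ l t := D.inf.trans (D.ml t)
    have hI : #(Iio t) ≤ l t := (D.seg t).le.trans (D.ml t)
    have hB1 : ∀ s : Iio t, #(B' δ s.1) ≤ l t := fun s => by
      rw [(hB' δ s.1 hδ).2]
      exact D.le_l _ _ s.2
    refine (mk_union_le _ _).trans ((add_le_add ?_ ((mk_union_le _ _).trans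
      (add_le_add ?_ ?_))).trans (by rw [add_eq_self hl, add_eq_self hl]))
    · rw [mk_singleton]
      exact one_le_aleph0.trans hl
    · refine (mk_iUnion_le _).trans ?_
      exact (mul_le_mul' hI (ciSup_le' hB1)).trans (mul_eq_self hl).le
    · refine (mk_iUnion_le _).trans ((mul_le_mul' hI (ciSup_le' fun s => ?_)).trans (mul_eq_self hl).le)
      refine (mk_iUnion_le _).trans ((mul_le_mul' hI (ciSup_le' fun s' => ?_)).trans (mul_eq_self hl).le)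
      refine (mk_iUnion_le _).trans ((mul_le_mul' (hB1 s) (ciSup_le' fun ρ => ?_)).trans
        (mul_eq_self hl).le)
      rw [(hB' ρ.1 s'.1 ((hB' δ s.1 hδ).1 ρ.2).2).2]
      exact D.le_l _ _ s'.2
  -- the sets `A t`
  have hA0 : ∀ t, ∃ A : Set X, A ⊆ XX t ∧ #A = k t ∧
      ∀ ξ ∈ bt t, ∀ α ∈ A, ∀ α' ∈ A, (c α ξ ↔ c α' ξ) := by
    intro t
    have h1 : #(Set (bt t)) < k t := by
      rw [mk_set]
      exact (power_le_power_left two_ne_zero (hbt t)).trans_lt (D.two t)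
    obtain ⟨T, hT, hTk, b, hb⟩ := exists_const' (D.reg t) (XX t) (D.cardX t).ge h1
      fun α => {ξ : bt t | c α ξ.1}
    refine ⟨T, hT, hTk.symm, fun ξ hξ α hα α' hα' => ?_⟩
    have h2 : (⟨ξ, hξ⟩ : bt t) ∈ {ξ : bt t | c α ξ.1} ↔ (⟨ξ, hξ⟩ : bt t) ∈ {ξ : bt t | c α' ξ.1} := by
      rw [hb α hα, hb α' hα']
    exact h2
  choose A hA hAk hAc using hA0
  -- the patterns
  let g : M → Y → Prop := fun t ξ => ∀ α ∈ A t, c α ξ
  have hAne : ∀ t, (A t).Nonempty := by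
    intro t
    have h1 : #(A t) ≠ 0 := by
      rw [hAk]
      exact (D.reg t).pos.ne'
    exact nonempty_coe_sort.1 (mk_ne_zero_iff.1 h1)
  have hg : ∀ t, ∀ ξ ∈ bt t, ∀ α ∈ A t, (c α ξ ↔ g t ξ) := by
    intro t ξ hξ α hα
    exact ⟨fun h α' hα' => (hAc t ξ hξ α hα α' hα').1 h, fun h => h α hα⟩
  have hC0 : ∀ η : Y, ∀ s : M, ∃ B : Set Y, η ∉ Bad XX c → B ⊆ B' η s ∧ #B = k s ∧
      ∀ ξ ∈ B, ∀ ξ' ∈ B, ∀ t, (g t ξ ↔ g t ξ') := by
    intro η s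
    by_cases h : η ∈ Bad XX c
    · exact ⟨∅, fun h' => absurd h h'⟩
    · have h1 : #(Set M) < k s := by
        rw [mk_set]
        exact (power_le_power_left two_ne_zero (D.ml s)).trans_lt (D.two s)
      obtain ⟨T, hT, hTk, b, hb⟩ := exists_const' (D.reg s) (B' η s) (hB' η s h).2.ge h1
        fun ξ => {t | g t ξ}
      refine ⟨T, fun _ => ⟨hT, hTk.symm, fun ξ hξ ξ' hξ' t => ?_⟩⟩
      have h2 : t ∈ {t | g t ξ} ↔ t ∈ {t | g t ξ'} := by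
        rw [hb ξ hξ, hb ξ' hξ']
      exact h2
  choose B hB using hC0
  have hBne : ∀ η ∉ Bad XX c, ∀ s, ∃ ξ, ξ ∈ B η s := by
    intro η hη s
    have h1 : #(B η s) ≠ 0 := by
      rw [(hB η s hη).2.1]
      exact (D.reg s).pos.ne'
    exact nonempty_coe_sort.1 (mk_ne_zero_iff.1 h1)
  choose! rp hrp using hBne
  set ρ : M → Y := fun s => rp δ s with hρdef
  have hρ : ∀ s, ρ s ∈ B δ s := fun s => hrp δ hδ s
  have hρg : ∀ s, ρ s ∉ Bad XX c := fun s => ((hB' δ s hδ).1 ((hB δ s hδ).1 (hρ s))).2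
  have hρ' : ∀ s s', rp (ρ s) s' ∈ B (ρ s) s' := fun s s' => hrp _ (hρg s) s'
  have hcl1 : ∀ s, ∀ ξ ∈ B δ s, ξ ∈ Cl XX c s δ := fun s ξ hξ => ((hB' δ s hδ).1 ((hB δ s hδ).1 hξ)).1
  have hcl2 : ∀ s s', ∀ ξ ∈ B (ρ s) s', ξ ∈ Cl XX c s' (ρ s) := fun s s' ξ hξ =>
    ((hB' (ρ s) s' (hρg s)).1 ((hB (ρ s) s' (hρg s)).1 hξ)).1
  have hb0 : ∀ t, δ ∈ bt t := fun t => Or.inl rfl
  have hb1 : ∀ s t, s < t → ∀ ξ ∈ B δ s, ξ ∈ bt t := fun s t h ξ hξ =>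
    Or.inr (Or.inl (mem_iUnion.2 ⟨⟨s, h⟩, (hB δ s hδ).1 hξ⟩))
  have hb2 : ∀ s s' t, s < t → s' < t → ∀ ξ ∈ B (ρ s) s', ξ ∈ bt t := fun s s' t h h' ξ hξ =>
    Or.inr (Or.inr (mem_iUnion.2 ⟨⟨s, h⟩, mem_iUnion.2 ⟨⟨s', h'⟩,
      mem_iUnion.2 ⟨⟨ρ s, (hB δ s hδ).1 (hρ s)⟩, (hB (ρ s) s' (hρg s)).1 hξ⟩⟩⟩))
  -- the stabilization
  have hJ : #(Option (M ⊕ M × M)) ≤ #M := by
    simp only [mk_option, mk_sum, mk_prod, lift_id]
    rw [mul_eq_self D.inf, add_eq_self D.inf]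
    exact (add_le_add le_rfl (one_le_aleph0.trans D.inf)).trans (add_eq_self D.inf).le
  obtain ⟨I, hI, hst⟩ := D.exists_I hJ fun j t => match j with
    | none => g t δ
    | some (Sum.inl s) => g t (ρ s)
    | some (Sum.inr (s, s')) => g t (rp (ρ s) s')
  obtain ⟨τ0, e0, he0⟩ := hst none
  choose τ1 e1 he1 using fun s => hst (some (Sum.inl s))
  choose τ2 e2 he2 using fun s s' => hst (some (Sum.inr (s, s')))
  have hc0 : ∀ t ∈ I, τ0 ≤ t → ∀ α ∈ A t, (c α δ ↔ e0) := fun t ht hτ α hα =>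
    (hg t δ (hb0 t) α hα).trans (he0 t ht hτ)
  have hc1 : ∀ s, ∀ t ∈ I, τ1 s ≤ t → s < t → ∀ α ∈ A t, ∀ ξ ∈ B δ s, (c α ξ ↔ e1 s) :=
    fun s t ht hτ hst α hα ξ hξ => (hg t ξ (hb1 s t hst ξ hξ) α hα).trans
      (((hB δ s hδ).2.2 ξ hξ (ρ s) (hρ s) t).trans (he1 s t ht hτ))
  have hc2 : ∀ s s', ∀ t ∈ I, τ2 s s' ≤ t → s < t → s' < t → ∀ α ∈ A t, ∀ ξ ∈ B (ρ s) s',
      (c α ξ ↔ e2 s s') :=
    fun s s' t ht hτ hst hst' α hα ξ hξ => (hg t ξ (hb2 s s' t hst hst' ξ hξ) α hα).trans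
      (((hB (ρ s) s' (hρg s)).2.2 ξ hξ _ (hρ' s s') t).trans (he2 s s' t ht hτ))
  -- case (b)
  by_cases hcb : ∃ s, Unb {s' | (e2 s s' ↔ e1 s)}
  · obtain ⟨s, hs⟩ := hcb
    refine ⟨e1 s, D.final c A hA (fun t => (hAk t).ge) I hI (ρ s) (e1 s) _ hs (fun s' => B (ρ s) s')
      (fun s' _ ξ hξ α hα => hcl2 s s' ξ hξ α hα) (fun s' _ => ((hB (ρ s) s' (hρg s)).2.1).ge) ?_ ?_⟩
    · intro s' hs'
      obtain ⟨t1, h1, h2⟩ := D.gt s s'
      refine ⟨max t1 (τ2 s s'), fun t ht hτ α hα ξ hξ => ?_⟩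
      rw [hc2 s s' t ht ((le_max_right _ _).trans hτ) (h1.trans_le ((le_max_left _ _).trans hτ))
        (h2.trans_le ((le_max_left _ _).trans hτ)) α hα ξ hξ]
      exact hs'
    · obtain ⟨t1, h1, -⟩ := D.gt s s
      exact ⟨max t1 (τ1 s), fun t ht hτ α hα => hc1 s t ht ((le_max_right _ _).trans hτ)
        (h1.trans_le ((le_max_left _ _).trans hτ)) α hα _ (hρ s)⟩
  -- case (c)
  by_cases hcc : Unb {s | ∃ s', s ≤ s' ∧ (e2 s s' ↔ e0)}
  · have h1 : ∀ s, ∃ s', (∃ s', s ≤ s' ∧ (e2 s s' ↔ e0)) → s ≤ s' ∧ (e2 s s' ↔ e0) := by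
      intro s
      by_cases h : ∃ s', s ≤ s' ∧ (e2 s s' ↔ e0)
      · obtain ⟨s', hs'⟩ := h
        exact ⟨s', fun _ => hs'⟩
      · exact ⟨s, fun h' => absurd h' h⟩
    choose f hf using h1
    refine ⟨e0, D.final c A hA (fun t => (hAk t).ge) I hI δ e0 _ hcc (fun s => B (ρ s) (f s)) ?_ ?_ ?_
      ⟨τ0, hc0⟩⟩
    · intro s hs ξ hξ α hα
      obtain ⟨h2, h3⟩ := hf s hs
      rw [hcl2 s (f s) ξ hξ α (D.mono _ _ h2 hα)]
      exact hcl1 s (ρ s) (hρ s) α hα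
    · intro s hs
      rw [(hB (ρ s) (f s) (hρg s)).2.1]
      exact D.k_mono (hf s hs).1
    · intro s hs
      obtain ⟨h2, h3⟩ := hf s hs
      obtain ⟨t1, h4, h5⟩ := D.gt s (f s)
      refine ⟨max t1 (τ2 s (f s)), fun t ht hτ α hα ξ hξ => ?_⟩
      rw [hc2 s (f s) t ht ((le_max_right _ _).trans hτ) (h4.trans_le ((le_max_left _ _).trans hτ))
        (h5.trans_le ((le_max_left _ _).trans hτ)) α hα ξ hξ]
      exact h3
  -- case (a)
  have hca : Unb {s | (e1 s ↔ e0)} := by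
    by_contra ha
    unfold Unb at hcb hcc ha
    push Not at hcb hcc ha
    obtain ⟨a1, ha1⟩ := hcc
    obtain ⟨a2, ha2⟩ := ha
    obtain ⟨s, hs1, hs2⟩ := D.gt a1 a2
    obtain ⟨a3, ha3⟩ := hcb s
    obtain ⟨s', hs'1, hs'2⟩ := D.gt s a3
    have h1 : ¬ (e1 s ↔ e0) := fun h => absurd (ha2 s h) (not_le.2 hs2)
    have h2 : ¬ (e2 s s' ↔ e0) := fun h => absurd (ha1 s ⟨s', hs'1.le, h⟩) (not_le.2 hs1)
    have h3 : ¬ (e2 s s' ↔ e1 s) := fun h => absurd (ha3 s' h) (not_le.2 hs'2)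
    tauto
  refine ⟨e0, D.final c A hA (fun t => (hAk t).ge) I hI δ e0 _ hca (fun s => B δ s)
    (fun s _ ξ hξ α hα => hcl1 s ξ hξ α hα) (fun s _ => ((hB δ s hδ).2.1).ge) ?_ ⟨τ0, hc0⟩⟩
  intro s hs
  obtain ⟨t1, h1, -⟩ := D.gt s s
  refine ⟨max t1 (τ1 s), fun t ht hτ α hα ξ hξ => ?_⟩
  rw [hc1 s t ht ((le_max_right _ _).trans hτ) (h1.trans_le ((le_max_left _ _).trans hτ)) α hα ξ hξ]
  exact hs

end F61C
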